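import Mathlib

/-!
# Fibonacci numbers that are half a sum or difference of two cubes

Necessary conditions for `2 F_n = x ^ 3 + y ^ 3`.
-/

set_option autoImplicit false

namespace Pool.Agent.Results.MP_572ea3_nt.HalfTheIndicesH85

open Nat

lemma per (n : ℕ) : Nat.fib (n + 48) % 63 = Nat.fib n % 63 := by
  have h := Nat.fib_add n 47
  have h47 : Nat.fib 47 = 2971215073 := by norm_num
  have h48 : Nat.fib (47 + 1) = 4807526976 := by norm_num
  rw [h47, h48] at h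
  have h1 : n + 47 + 1 = n + 48 := rfl
  rw [h1] at h
  omega

lemma per' (q r : ℕ) : Nat.fib (48 * q + r) % 63 = Nat.fib r % 63 := by
  induction q with
  | zero => simp
  | succ q ih =>
    have : 48 * (q + 1) + r = (48 * q + r) + 48 := by ring
    rw [this, per, ih]

lemma fib_mod (n : ℕ) : Nat.fib n % 63 = Nat.fib (n % 48) % 63 := by
  conv_lhs => rw [← Nat.div_add_mod n 48]
  exact per' _ _

lemma c9 : ∀ x y : ZMod 9, x ^ 3 + y ^ 3 = 0 ∨ x ^ 3 + y ^ 3 = 1 ∨ x ^ 3 + y ^ 3 = 2 ∨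
    x ^ 3 + y ^ 3 = 7 ∨ x ^ 3 + y ^ 3 = 8 := by decide

lemma c7 : ∀ x y : ZMod 7, x ^ 3 + y ^ 3 = 0 ∨ x ^ 3 + y ^ 3 = 1 ∨ x ^ 3 + y ^ 3 = 2 ∨
    x ^ 3 + y ^ 3 = 5 ∨ x ^ 3 + y ^ 3 = 6 := by decide

/-- the residues modulo `48` that are not excluded by the cubes modulo `7` and `9` -/
def classes : List ℕ :=
  [0, 1, 2, 6, 7, 10, 12, 14, 17, 18, 22, 23, 24, 25, 26, 30, 31, 34, 36, 38, 41, 42, 46, 47]

lemma table : ∀ r < 48, (2 * Nat.fib r % 9 = 0 ∨ 2 * Nat.fib r % 9 = 1 ∨ 2 * Nat.fib r % 9 = 2 ∨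
    2 * Nat.fib r % 9 = 7 ∨ 2 * Nat.fib r % 9 = 8) →
    (2 * Nat.fib r % 7 = 0 ∨ 2 * Nat.fib r % 7 = 1 ∨ 2 * Nat.fib r % 7 = 2 ∨
    2 * Nat.fib r % 7 = 5 ∨ 2 * Nat.fib r % 7 = 6) → r ∈ classes := by
  decide

lemma conv9 {N k : ℕ} (h : ((N : ℕ) : ZMod 9) = ((k : ℕ) : ZMod 9)) (hk : k < 9) : N % 9 = k := by
  have := (ZMod.natCast_eq_natCast_iff' N k 9).1 h
  omega

lemma conv7 {N k : ℕ} (h : ((N : ℕ) : ZMod 7) = ((k : ℕ) : ZMod 7)) (hk : k < 7) : N % 7 = k := by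
  have := (ZMod.natCast_eq_natCast_iff' N k 7).1 h
  omega

lemma class_of {n : ℕ} {x y : ℤ} (h : 2 * (Nat.fib n : ℤ) = x ^ 3 + y ^ 3) :
    n % 48 ∈ classes := by
  have e9 : ((2 * Nat.fib n : ℕ) : ZMod 9) = (x : ZMod 9) ^ 3 + (y : ZMod 9) ^ 3 := by
    have := congrArg (fun t : ℤ => (t : ZMod 9)) h
    push_cast at this ⊢
    exact this
  have e7 : ((2 * Nat.fib n : ℕ) : ZMod 7) = (x : ZMod 7) ^ 3 + (y : ZMod 7) ^ 3 := by
    have := congrArg (fun t : ℤ => (t : ZMod 7)) h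
    push_cast at this ⊢
    exact this
  have f9 : 2 * Nat.fib n % 9 = 0 ∨ 2 * Nat.fib n % 9 = 1 ∨ 2 * Nat.fib n % 9 = 2 ∨
      2 * Nat.fib n % 9 = 7 ∨ 2 * Nat.fib n % 9 = 8 := by
    rcases c9 x y with h1 | h1 | h1 | h1 | h1 <;> rw [← e9] at h1
    · exact Or.inl (conv9 (k := 0) (by exact_mod_cast h1) (by norm_num))
    · exact Or.inr (Or.inl (conv9 (k := 1) (by exact_mod_cast h1) (by norm_num)))
    · exact Or.inr (Or.inr (Or.inl (conv9 (k := 2) (by exact_mod_cast h1) (by norm_num))))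
    · exact Or.inr (Or.inr (Or.inr (Or.inl (conv9 (k := 7) (by exact_mod_cast h1)
        (by norm_num)))))
    · exact Or.inr (Or.inr (Or.inr (Or.inr (conv9 (k := 8) (by exact_mod_cast h1)
        (by norm_num)))))
  have f7 : 2 * Nat.fib n % 7 = 0 ∨ 2 * Nat.fib n % 7 = 1 ∨ 2 * Nat.fib n % 7 = 2 ∨
      2 * Nat.fib n % 7 = 5 ∨ 2 * Nat.fib n % 7 = 6 := by
    rcases c7 x y with h1 | h1 | h1 | h1 | h1 <;> rw [← e7] at h1
    · exact Or.inl (conv7 (k := 0) (by exact_mod_cast h1) (by norm_num))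
    · exact Or.inr (Or.inl (conv7 (k := 1) (by exact_mod_cast h1) (by norm_num)))
    · exact Or.inr (Or.inr (Or.inl (conv7 (k := 2) (by exact_mod_cast h1) (by norm_num))))
    · exact Or.inr (Or.inr (Or.inr (Or.inl (conv7 (k := 5) (by exact_mod_cast h1)
        (by norm_num)))))
    · exact Or.inr (Or.inr (Or.inr (Or.inr (conv7 (k := 6) (by exact_mod_cast h1)
        (by norm_num)))))
  have hm := fib_mod n
  refine table (n % 48) (Nat.mod_lt _ (by norm_num)) ?_ ?_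
  · generalize Nat.fib (n % 48) = A at *
    generalize Nat.fib n = B at *
    omega
  · generalize Nat.fib (n % 48) = A at *
    generalize Nat.fib n = B at *
    omega

lemma unit_one {m e : ℕ} {x : ZMod m} (he : e ≠ 0) (hx : x ^ e = 1)
    (hcop : Nat.Coprime e (φ m)) : x = 1 := by
  obtain ⟨u, rfl⟩ := IsUnit.of_pow_eq_one hx he
  have h1 : u ^ e = 1 := Units.ext (by rw [Units.val_pow_eq_pow_val, hx, Units.val_one])
  have h2 : u ^ φ m = 1 := ZMod.pow_totient u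
  have h3 : orderOf u ∣ Nat.gcd e (φ m) :=
    Nat.dvd_gcd (orderOf_dvd_of_pow_eq_one h1) (orderOf_dvd_of_pow_eq_one h2)
  rw [hcop, Nat.dvd_one, orderOf_eq_one_iff] at h3
  rw [h3, Units.val_one]

/-- a prime that is `2` modulo `3` and divides `x² - x y + y²` divides `x` and `y` -/
lemma prime_dvd {p : ℕ} (hp : p.Prime) (h3 : p % 3 = 2) {x y : ℤ}
    (h : (p : ℤ) ∣ x ^ 2 - x * y + y ^ 2) : (p : ℤ) ∣ x ∧ (p : ℤ) ∣ y := by
  have hF : Fact p.Prime := ⟨hp⟩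
  have h1 : ((x : ZMod p)) ^ 2 - x * y + (y : ZMod p) ^ 2 = 0 := by
    have := (ZMod.intCast_zmod_eq_zero_iff_dvd (x ^ 2 - x * y + y ^ 2) p).2 h
    push_cast at this
    exact this
  have hy : (y : ZMod p) = 0 := by
    by_contra hy
    have h2 : (-(x : ZMod p) / y) ^ 3 = 1 := by
      rw [div_pow, div_eq_one_iff_eq (pow_ne_zero 3 hy)]
      linear_combination -((x : ZMod p) + y) * h1
    have h4 : Nat.Coprime 3 (φ p) := by
      rw [Nat.totient_prime hp]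
      refine (Nat.Prime.coprime_iff_not_dvd Nat.prime_three).2 ?_
      omega
    have h5 := unit_one (by norm_num) h2 h4
    rw [div_eq_one_iff_eq hy] at h5
    have h6 : (3 : ZMod p) * (y : ZMod p) ^ 2 = 0 := by
      rw [← h1, ← h5]
      ring
    rcases mul_eq_zero.1 h6 with h7 | h7
    · have h8 : ((3 : ℕ) : ZMod p) = 0 := by exact_mod_cast h7
      rw [ZMod.natCast_eq_zero_iff] at h8
      have h9 := (Nat.prime_dvd_prime_iff_eq hp Nat.prime_three).1 h8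
      omega
    · exact hy (pow_eq_zero_iff (by norm_num) |>.1 h7)
  have hx : (x : ZMod p) = 0 := by
    rw [hy] at h1
    have h2 : (x : ZMod p) ^ 2 = 0 := by linear_combination h1
    exact pow_eq_zero_iff (by norm_num) |>.1 h2
  exact ⟨(ZMod.intCast_zmod_eq_zero_iff_dvd x p).1 hx, (ZMod.intCast_zmod_eq_zero_iff_dvd y p).1 hy⟩

/-- If `F_n`, `n ≥ 1`, is half a sum or difference of two cubes, `2 F_n = x³ + y³`, then `n` modulo
`48` is one of the `24` residues of `classes`, and every divisor `d` of `2 F_n` all of whose prime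
factors `p` are `2` modulo `3` with `p³ ∤ 2 F_n` divides `x + y` and satisfies `d³ ≤ 8 F_n`. -/
theorem result : ∀ (n : ℕ) (x y : ℤ), 1 ≤ n → 2 * (Nat.fib n : ℤ) = x ^ 3 + y ^ 3 →
    n % 48 ∈ classes ∧
    ∀ d : ℕ, d ∣ 2 * Nat.fib n →
      (∀ p : ℕ, p.Prime → p ∣ d → p % 3 = 2 ∧ ¬ p ^ 3 ∣ 2 * Nat.fib n) →
      (d : ℤ) ∣ x + y ∧ d ^ 3 ≤ 8 * Nat.fib n := by
  intro n x y hn h
  refine ⟨class_of h, fun d hd hp => ?_⟩
  have hfac : x ^ 3 + y ^ 3 = (x + y) * (x ^ 2 - x * y + y ^ 2) := by ring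
  have hcop : Nat.Coprime d (x ^ 2 - x * y + y ^ 2).natAbs := by
    refine Nat.coprime_of_dvd fun p hpp hpd hpQ => ?_
    obtain ⟨hx, hy⟩ := prime_dvd hpp (hp p hpp hpd).1 (Int.natCast_dvd.2 hpQ)
    refine (hp p hpp hpd).2 ?_
    have h1 : ((p ^ 3 : ℕ) : ℤ) ∣ x ^ 3 + y ^ 3 := by
      push_cast
      exact dvd_add (pow_dvd_pow_of_dvd hx 3) (pow_dvd_pow_of_dvd hy 3)
    rw [← h] at h1
    exact_mod_cast h1
  have hcop' : IsCoprime (d : ℤ) (x ^ 2 - x * y + y ^ 2) := by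
    rw [Int.isCoprime_iff_gcd_eq_one]
    simpa [Int.gcd] using hcop
  have hd' : (d : ℤ) ∣ (x + y) * (x ^ 2 - x * y + y ^ 2) := by
    rw [← hfac, ← h]
    exact_mod_cast hd
  have hds : (d : ℤ) ∣ x + y := hcop'.dvd_of_dvd_mul_right hd'
  refine ⟨hds, ?_⟩
  have hF : (0 : ℤ) < Nat.fib n := by exact_mod_cast Nat.fib_pos.2 (by omega)
  have hQ : 0 ≤ x ^ 2 - x * y + y ^ 2 := by nlinarith [sq_nonneg (x - y), sq_nonneg (x + y)]
  have hs : 0 < x + y := by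
    by_contra hc
    push Not at hc
    have : (x + y) * (x ^ 2 - x * y + y ^ 2) ≤ 0 := mul_nonpos_of_nonpos_of_nonneg hc hQ
    rw [← hfac, ← h] at this
    linarith
  have hle : (d : ℤ) ≤ x + y := Int.le_of_dvd hs hds
  have h3 : (d : ℤ) ^ 3 ≤ (x + y) ^ 3 := pow_le_pow_left₀ (by positivity) hle 3
  have h4 : (x + y) ^ 3 ≤ 8 * (Nat.fib n : ℤ) := by
    have h5 : 0 ≤ (x + y) * (x - y) ^ 2 := mul_nonneg hs.le (sq_nonneg _)
    nlinarith
  exact_mod_cast h3.trans h4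

end Pool.Agent.Results.MP_572ea3_nt.HalfTheIndicesH85
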